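import Mathlib

set_option autoImplicit false

namespace Pool.Agent.H53.XP

/-- The second path: position of the representative `j`. -/
lemma pathC (p r : ℕ) (hr : 2 ≤ r) (hrp : r + 2 ≤ p) (hodd : p % 2 = 1) :
    ∃ pos : ℕ → ℕ, (∀ j < p, pos j < p) ∧ (∀ i < p, ∀ j < p, pos i = pos j → i = j) ∧
      pos r = 0 ∧ pos 0 + 1 = p ∧
      (∀ j, 0 < j → j + 1 < p → j ≠ r → pos j + 1 = pos (j+1) ∨ pos (j+1) + 1 = pos j) ∧
      (pos (p - 1) + 1 = pos 0 ∨ pos 0 + 1 = pos (p-1)) ∧
      (pos 1 + 1 = pos (r+1) ∨ pos (r+1) + 1 = pos 1) := by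
  refine ⟨fun j => if j = 0 then p - 1 else if j ≤ r then r - j else j - 1, ?_, ?_, ?_, ?_, ?_, ?_, ?_⟩
  · intro j hj
    simp only
    split_ifs <;> first | contradiction | omega
  · intro i hi j hj
    simp only
    split_ifs <;> first | contradiction | omega
  · simp only
    split_ifs <;> first | contradiction | omega
  · simp only
    split_ifs <;> first | contradiction | omega
  · intro j h0 h1 h2
    simp only
    split_ifs <;> first | contradiction | omega
  · simp only
    split_ifs <;> first | contradiction | omega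
  · simp only
    split_ifs <;> first | contradiction | omega

/-- The first path. -/
lemma pathB (p a t : ℕ) (ha : 2 ≤ a) (hap : a + 2 ≤ p) (ht : 2 ≤ t) (htp : t + 2 ≤ p) (hta : t ≠ a) :
    ∃ pos : ℕ → ℕ, (∀ j < p, pos j < p) ∧ (∀ i < p, ∀ j < p, pos i = pos j → i = j) ∧
      pos (t + 1) = 0 ∧ pos t + 1 = p ∧
      (∀ j, 0 < j → j + 1 < p → j ≠ a → j ≠ t → pos j + 1 = pos (j+1) ∨ pos (j+1) + 1 = pos j) ∧
      (pos (p - 1) + 1 = pos 0 ∨ pos 0 + 1 = pos (p-1)) ∧
      (pos 0 + 1 = pos a ∨ pos a + 1 = pos 0) ∧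
      (pos 1 + 1 = pos (a+1) ∨ pos (a+1) + 1 = pos 1) := by
  rcases lt_or_gt_of_ne hta with h | h
  · refine ⟨fun j => if j = 0 then a - t else if j ≤ t then p - t + j - 1
      else if j ≤ a then j - t - 1 else a - t + (p - j), ?_, ?_, ?_, ?_, ?_, ?_, ?_, ?_⟩
    · intro j hj
      simp only
      split_ifs <;> first | contradiction | omega
    · intro i hi j hj
      simp only
      split_ifs <;> first | contradiction | omega
    · simp only
      split_ifs <;> first | contradiction | omega
    · simp only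
      split_ifs <;> first | contradiction | omega
    · intro j h0 h1 h2 h3
      simp only
      split_ifs <;> first | contradiction | omega
    · simp only
      split_ifs <;> first | contradiction | omega
    · simp only
      split_ifs <;> first | contradiction | omega
    · simp only
      split_ifs <;> first | contradiction | omega
  · refine ⟨fun j => if j = 0 then p - t - 1 else if j ≤ a then p - t + a - j
      else if j ≤ t then p - t + j - 1 else j - t - 1, ?_, ?_, ?_, ?_, ?_, ?_, ?_, ?_⟩
    · intro j hj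
      simp only
      split_ifs <;> first | contradiction | omega
    · intro i hi j hj
      simp only
      split_ifs <;> first | contradiction | omega
    · simp only
      split_ifs <;> first | contradiction | omega
    · simp only
      split_ifs <;> first | contradiction | omega
    · intro j h0 h1 h2 h3
      simp only
      split_ifs <;> first | contradiction | omega
    · simp only
      split_ifs <;> first | contradiction | omega
    · simp only
      split_ifs <;> first | contradiction | omega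
    · simp only
      split_ifs <;> first | contradiction | omega

/-- From a Hamiltonian path on an odd number of vertices: two near-perfect matchings -/
lemma pathInv {V : Type*} (p : ℕ) (hodd : p % 2 = 1) (e : V ≃ Fin p) :
    ∃ α β : V → V, (∀ v, α (α v) = v) ∧ (∀ v, β (β v) = v) ∧
      (∀ v, α v = v ↔ (e v).val + 1 = p) ∧ (∀ v, β v = v ↔ (e v).val = 0) ∧
      (∀ u v, (e u).val + 1 = (e v).val → (α u = v ∨ β u = v)) := by
  have hA : ∀ q : Fin p, (if q.val + 1 = p then q.val else if q.val % 2 = 0 then q.val + 1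
      else q.val - 1) < p := by
    intro q
    have := q.2
    split_ifs <;> first | contradiction | omega
  have hB : ∀ q : Fin p, (if q.val = 0 then 0 else if q.val % 2 = 0 then q.val - 1
      else q.val + 1) < p := by
    intro q
    have := q.2
    split_ifs <;> first | contradiction | omega
  refine ⟨fun v => e.symm ⟨_, hA (e v)⟩, fun v => e.symm ⟨_, hB (e v)⟩, ?_, ?_, ?_, ?_, ?_⟩
  · intro v
    simp only [Equiv.apply_symm_apply]
    rw [Equiv.symm_apply_eq]
    ext
    simp only
    have := (e v).2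
    split_ifs <;> first | contradiction | omega
  · intro v
    simp only [Equiv.apply_symm_apply]
    rw [Equiv.symm_apply_eq]
    ext
    simp only
    have := (e v).2
    split_ifs <;> first | contradiction | omega
  · intro v
    simp only
    rw [Equiv.symm_apply_eq, Fin.ext_iff]
    simp only
    have := (e v).2
    split_ifs <;> first | contradiction | omega
  · intro v
    simp only
    rw [Equiv.symm_apply_eq, Fin.ext_iff]
    simp only
    have := (e v).2
    split_ifs <;> first | contradiction | omega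
  · intro u v huv
    simp only
    rw [Equiv.symm_apply_eq, Equiv.symm_apply_eq, Fin.ext_iff, Fin.ext_iff]
    simp only
    have := (e v).2
    split_ifs <;> first | contradiction | omega

lemma posEquiv (p : ℕ) [Fact p.Prime] (pos : ℕ → ℕ) (h1 : ∀ j < p, pos j < p)
    (h2 : ∀ i < p, ∀ j < p, pos i = pos j → i = j) :
    ∃ e : ZMod p ≃ Fin p, ∀ x, (e x).val = pos x.val := by
  have hb : Function.Bijective (fun x : ZMod p => (⟨pos x.val, h1 _ (ZMod.val_lt x)⟩ : Fin p)) := by
    rw [Fintype.bijective_iff_injective_and_card]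
    refine ⟨?_, by simp [ZMod.card]⟩
    intro x y hxy
    simp only [Fin.mk.injEq] at hxy
    exact ZMod.val_injective p (h2 _ (ZMod.val_lt x) _ (ZMod.val_lt y) hxy)
  exact ⟨Equiv.ofBijective _ hb, fun x => rfl⟩

lemma succ_val (p : ℕ) [Fact p.Prime] (x : ZMod p) :
    (x + 1).val = if x.val + 1 = p then 0 else x.val + 1 := by
  have : Fact (1 < p) := ⟨(Fact.out : p.Prime).one_lt⟩
  rw [ZMod.val_add, ZMod.val_one]
  have := ZMod.val_lt x
  split_ifs with h
  · rw [h]; exact Nat.mod_self p
  · exact Nat.mod_eq_of_lt (by omega)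

lemma val_two_le (p : ℕ) [Fact p.Prime] (x : ZMod p) (h0 : x ≠ 0) (h1 : x ≠ 1) : 2 ≤ x.val := by
  have : Fact (1 < p) := ⟨(Fact.out : p.Prime).one_lt⟩
  have h2 : x.val ≠ 0 := by
    rw [Ne, ZMod.val_eq_zero]; exact h0
  have h3 : x.val ≠ 1 := by
    intro h
    apply h1
    apply ZMod.val_injective p
    rw [h, ZMod.val_one]
  omega

lemma val_add_two_le (p : ℕ) [Fact p.Prime] (x : ZMod p) (h1 : x ≠ -1) : x.val + 2 ≤ p := by
  have h2 := ZMod.val_lt x
  have h3 : x.val + 1 ≠ p := by
    intro h
    apply h1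
    have h4 := succ_val p x
    rw [if_pos h, ZMod.val_eq_zero] at h4
    exact eq_neg_of_add_eq_zero_left h4
  omega

theorem local1 (p : ℕ) [Fact p.Prime] (hodd : p % 2 = 1) (a t : ZMod p)
    (ha0 : a ≠ 0) (ha1 : a ≠ 1) (ha2 : a ≠ -1) (ht0 : t ≠ 0) (ht1 : t ≠ 1) (ht2 : t ≠ -1)
    (hta : t ≠ a) :
    ∃ α : Fin 2 → Fin 2 → ZMod p → ZMod p, (∀ u v x, α u v (α u v x) = x) ∧
      (∀ u v x, α u v x = x ↔ x = (if u = 1 then 1 else 0) + (if v = 1 then t else 0)) ∧
      (∀ x, x ≠ 0 → x ≠ t → ∃ u v, α u v x = x + 1) ∧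
      (∀ x, ∃ u v, α u v x = x + a) := by
  have : Fact (1 < p) := ⟨(Fact.out : p.Prime).one_lt⟩
  have hinj := ZMod.val_injective p
  obtain ⟨pos1, b1, b2, b3, b4, b5, b6, b7, b8⟩ := pathB p a.val t.val (val_two_le p a ha0 ha1)
    (val_add_two_le p a ha2) (val_two_le p t ht0 ht1) (val_add_two_le p t ht2)
    (fun h => hta (hinj h))
  have hr0 : a⁻¹ ≠ 0 := inv_ne_zero ha0
  have hr1 : a⁻¹ ≠ 1 := by rw [Ne, inv_eq_one]; exact ha1
  have hr2 : a⁻¹ ≠ -1 := by
    intro h
    apply ha2
    rw [inv_eq_iff_eq_inv] at h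
    rw [h]
    simp
  obtain ⟨pos2, c1, c2, c3, c4, c5, c6, c7⟩ := pathC p (a⁻¹).val (val_two_le p _ hr0 hr1)
    (val_add_two_le p _ hr2) hodd
  obtain ⟨e1, he1⟩ := posEquiv p pos1 b1 b2
  obtain ⟨e2', he2'⟩ := posEquiv p pos2 c1 c2
  have he2 : ∀ x, (((Equiv.mulRight₀ a⁻¹ hr0).trans e2') x).val = pos2 (x * a⁻¹).val := by
    intro x
    simp [he2']
  set e2 := (Equiv.mulRight₀ a⁻¹ hr0).trans e2' with he2def
  obtain ⟨α1, β1, i1, j1, f1, g1, k1⟩ := pathInv p hodd e1
  obtain ⟨α2, β2, i2, j2, f2, g2, k2⟩ := pathInv p hodd e2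
  -- symmetric coverage
  have K1 : ∀ u v, ((e1 u).val + 1 = (e1 v).val ∨ (e1 v).val + 1 = (e1 u).val) →
      (α1 u = v ∨ β1 u = v) := by
    rintro u v (h | h)
    · exact k1 u v h
    · rcases k1 v u h with h' | h'
      · left; rw [← h', i1]
      · right; rw [← h', j1]
  have K2 : ∀ u v, ((e2 u).val + 1 = (e2 v).val ∨ (e2 v).val + 1 = (e2 u).val) →
      (α2 u = v ∨ β2 u = v) := by
    rintro u v (h | h)
    · exact k2 u v h
    · rcases k2 v u h with h' | h'
      · left; rw [← h', i2]
      · right; rw [← h', j2]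
  -- ends
  have hv0 : (0 : ZMod p).val = 0 := ZMod.val_zero
  have hv1 : (1 : ZMod p).val = 1 := ZMod.val_one p
  have halt := val_add_two_le p a ha2
  have htlt := val_add_two_le p t ht2
  have hrlt := val_add_two_le p _ hr2
  have hsa : (a + 1).val = a.val + 1 := by rw [succ_val, if_neg (by omega)]
  have hst : (t + 1).val = t.val + 1 := by rw [succ_val, if_neg (by omega)]
  have hsr : (a⁻¹ + 1).val = (a⁻¹).val + 1 := by rw [succ_val, if_neg (by omega)]
  have E1 : (e1 (t + 1)).val = 0 := by rw [he1, hst, b3]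
  have E2 : (e1 t).val + 1 = p := by rw [he1, b4]
  have E3 : (e2 1).val = 0 := by rw [he2, one_mul, c3]
  have E4 : (e2 0).val + 1 = p := by rw [he2, zero_mul, hv0, c4]
  have haa : a * a⁻¹ = 1 := mul_inv_cancel₀ ha0
  -- edges
  have A1 : ∀ x, x ≠ 0 → x ≠ a → x ≠ t → (α1 x = x + 1 ∨ β1 x = x + 1) := by
    intro x h0 h1 h2
    apply K1
    rw [he1, he1, succ_val]
    have l0 : x.val ≠ 0 := by rw [Ne, ZMod.val_eq_zero]; exact h0
    have l1 : x.val ≠ a.val := fun h => h1 (hinj h)
    have l2 : x.val ≠ t.val := fun h => h2 (hinj h)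
    have l3 := ZMod.val_lt x
    split_ifs with h
    · have : x.val = p - 1 := by omega
      rw [this]
      exact b6
    · exact b5 x.val (by omega) (by omega) l1 l2
  have A2 : (α1 0 = a ∨ β1 0 = a) := by
    apply K1
    rw [he1, he1, hv0]
    exact b7
  have A3 : (α1 1 = 1 + a ∨ β1 1 = 1 + a) := by
    apply K1
    rw [he1, he1, add_comm (1 : ZMod p) a, hsa, hv1]
    exact b8
  have A4 : ∀ x, x ≠ 0 → x ≠ 1 → (α2 x = x + a ∨ β2 x = x + a) := by
    intro x h0 h1
    apply K2
    rw [he2, he2, add_mul, haa, succ_val]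
    have m0 : x * a⁻¹ ≠ 0 := mul_ne_zero h0 hr0
    have m1 : x * a⁻¹ ≠ a⁻¹ := by
      intro h
      apply h1
      have := mul_right_cancel₀ hr0 (h.trans (one_mul a⁻¹).symm)
      exact this
    have l0 : (x * a⁻¹).val ≠ 0 := by rw [Ne, ZMod.val_eq_zero]; exact m0
    have l1 : (x * a⁻¹).val ≠ (a⁻¹).val := fun h => m1 (hinj h)
    have l3 := ZMod.val_lt (x * a⁻¹)
    split_ifs with h
    · have : (x * a⁻¹).val = p - 1 := by omega
      rw [this]
      exact c6
    · exact c5 _ (by omega) (by omega) l1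
  have A5 : (α2 a = a + 1 ∨ β2 a = a + 1) := by
    apply K2
    rw [he2, he2, add_mul, haa, one_mul, add_comm 1 a⁻¹, hsr, hv1]
    exact c7
  refine ⟨fun u v => if v = 0 then (if u = 0 then α2 else β2) else (if u = 0 then α1 else β1),
    ?_, ?_, ?_, ?_⟩
  · intro u v x
    fin_cases u <;> fin_cases v <;> simp [i1, j1, i2, j2]
  · have F1 : ∀ x, α1 x = x ↔ x = t := by
      intro x
      rw [f1]
      constructor
      · intro h
        apply e1.injective
        apply Fin.ext
        omega
      · rintro rfl; exact E2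
    have F2 : ∀ x, β1 x = x ↔ x = 1 + t := by
      intro x
      rw [g1, add_comm]
      constructor
      · intro h
        apply e1.injective
        apply Fin.ext
        omega
      · rintro rfl; exact E1
    have F3 : ∀ x, α2 x = x ↔ x = 0 := by
      intro x
      rw [f2]
      constructor
      · intro h
        apply e2.injective
        apply Fin.ext
        omega
      · rintro rfl; exact E4
    have F4 : ∀ x, β2 x = x ↔ x = 1 := by
      intro x
      rw [g2]
      constructor
      · intro h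
        apply e2.injective
        apply Fin.ext
        omega
      · rintro rfl; exact E3
    intro u v x
    fin_cases u <;> fin_cases v <;> simp [F1, F2, F3, F4]
  · intro x h0 ht
    by_cases hxa : x = a
    · subst hxa
      rcases A5 with h | h
      · exact ⟨0, 0, by simpa using h⟩
      · exact ⟨1, 0, by simpa using h⟩
    · rcases A1 x h0 hxa ht with h | h
      · exact ⟨0, 1, by simpa using h⟩
      · exact ⟨1, 1, by simpa using h⟩
  · intro x
    by_cases h0 : x = 0
    · subst h0
      rcases A2 with h | h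
      · exact ⟨0, 1, by simpa using h⟩
      · exact ⟨1, 1, by simpa using h⟩
    · by_cases h1 : x = 1
      · subst h1
        rcases A3 with h | h
        · exact ⟨0, 1, by simpa using h⟩
        · exact ⟨1, 1, by simpa using h⟩
      · rcases A4 x h0 h1 with h | h
        · exact ⟨0, 0, by simpa using h⟩
        · exact ⟨1, 0, by simpa using h⟩

/-- the local lemma, with a base point and a scaling -/
theorem local2 (p : ℕ) [Fact p.Prime] (hodd : p % 2 = 1) (s s' t y : ZMod p)
    (hs : s ≠ 0) (hs0 : s' ≠ 0) (hs1 : s' ≠ s) (hs2 : s' ≠ -s)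
    (ht0 : t ≠ 0) (ht1 : t ≠ s) (ht2 : t ≠ -s) (hts : t ≠ s') :
    ∃ α : Fin 2 → Fin 2 → ZMod p → ZMod p, (∀ u v x, α u v (α u v x) = x) ∧
      (∀ u v x, α u v x = x ↔ x = y + (if u = 1 then s else 0) + (if v = 1 then t else 0)) ∧
      (∀ x, x ≠ y → x ≠ y + t → ∃ u v, α u v x = x + s) ∧
      (∀ x, ∃ u v, α u v x = x + s') := by
  have hsi : s * s⁻¹ = 1 := mul_inv_cancel₀ hs
  have hsi' : s⁻¹ * s = 1 := inv_mul_cancel₀ hs
  have hcan : ∀ u v : ZMod p, u * s⁻¹ = v ↔ u = v * s := fun u v => mul_inv_eq_iff_eq_mul₀ hs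
  obtain ⟨α, h1, h2, h3, h4⟩ := local1 p hodd (s' * s⁻¹) (t * s⁻¹)
    (by rw [Ne, hcan]; simpa using hs0)
    (by rw [Ne, hcan]; simpa using hs1)
    (by rw [Ne, hcan]; simpa using hs2)
    (by rw [Ne, hcan]; simpa using ht0)
    (by rw [Ne, hcan]; simpa using ht1)
    (by rw [Ne, hcan]; simpa using ht2)
    (by
      intro h
      exact hts (mul_right_cancel₀ (inv_ne_zero hs) h))
  have hA : ∀ z : ZMod p, (z * s + y - y) * s⁻¹ = z := by
    intro z
    rw [add_sub_cancel_right, mul_assoc, hsi, mul_one]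
  have hB : ∀ x z : ZMod p, z * s + y = x ↔ z = (x - y) * s⁻¹ := by
    intro x z
    rw [eq_comm (a := z), hcan, sub_eq_iff_eq_add, eq_comm]
  refine ⟨fun u v x => α u v ((x - y) * s⁻¹) * s + y, ?_, ?_, ?_, ?_⟩
  · intro u v x
    simp only
    rw [hA, h1, hB]
  · intro u v x
    simp only
    rw [hB, h2, eq_comm (a := ((x - y) * s⁻¹)) , eq_comm, hcan, sub_eq_iff_eq_add]
    have e : ((if u = 1 then 1 else 0) + (if v = 1 then t * s⁻¹ else 0)) * s + y
        = y + (if u = 1 then s else 0) + (if v = 1 then t else 0) := by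
      have e2 : t * s⁻¹ * s = t := by rw [mul_assoc, hsi', mul_one]
      split_ifs
      · rw [add_mul, e2]; ring
      · ring
      · rw [zero_add, e2]; ring
      · ring
    rw [e]
  · intro x hx hxt
    obtain ⟨u, v, h⟩ := h3 ((x - y) * s⁻¹)
      (by rw [Ne, hcan, zero_mul, sub_eq_zero]; exact hx)
      (by
        intro h
        apply hxt
        have := mul_right_cancel₀ (inv_ne_zero hs) h
        rw [← this]; ring)
    refine ⟨u, v, ?_⟩
    simp only
    rw [hB, h, add_sub_right_comm, add_mul, hsi]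
  · intro x
    obtain ⟨u, v, h⟩ := h4 ((x - y) * s⁻¹)
    refine ⟨u, v, ?_⟩
    simp only
    rw [hB, h, add_sub_right_comm, add_mul]

end Pool.Agent.H53.XP
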