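import Mathlib
import Pool.Graph.R_seed8.W284.TF.Dyson

set_option autoImplicit false

namespace Pool.Agent.H53.XP

open MvPolynomial Finset

section

variable {σ : Type*} {R : Type*} [CommRing R]

/-- all coefficients of degree at least `n` vanish -/
def DL (n : ℕ) (f : MvPolynomial σ R) : Prop := ∀ t : σ →₀ ℕ, n ≤ t.degree → coeff t f = 0

lemma DL_mul [DecidableEq σ] {m n k : ℕ} (hk : k + 1 = m + n) {f g : MvPolynomial σ R}
    (hf : DL m f) (hg : DL n g) : DL k (f * g) := by
  intro t ht
  rw [coeff_mul]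
  apply Finset.sum_eq_zero
  intro uv huv
  rw [Finset.HasAntidiagonal.mem_antidiagonal] at huv
  have hd : uv.1.degree + uv.2.degree = t.degree := by
    rw [← huv, map_add]
  by_cases h1 : m ≤ uv.1.degree
  · rw [hf _ h1, zero_mul]
  · rw [hg _ (by omega), mul_zero]

lemma DL_add {m : ℕ} {f g : MvPolynomial σ R} (hf : DL m f) (hg : DL m g) : DL m (f + g) := by
  intro t ht
  rw [coeff_add, hf t ht, hg t ht, add_zero]

lemma DL_sub {m : ℕ} {f g : MvPolynomial σ R} (hf : DL m f) (hg : DL m g) : DL m (f - g) := by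
  intro t ht
  rw [coeff_sub, hf t ht, hg t ht, sub_zero]

lemma DL_mono {m n : ℕ} (h : m ≤ n) {f : MvPolynomial σ R} (hf : DL m f) : DL n f := by
  intro t ht
  exact hf t (h.trans ht)

lemma DL_C (c : R) : DL 1 (C c : MvPolynomial σ R) := by
  classical
  intro t ht
  rw [coeff_C, if_neg]
  rintro rfl
  simp at ht

lemma DL_X (i : σ) : DL 2 (X i : MvPolynomial σ R) := by
  classical
  intro t ht
  rw [coeff_X, if_neg]
  rintro rfl
  simp at ht

end

section

variable {σ : Type*} {R : Type*} [CommRing R] [DecidableEq σ]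

lemma DL_prod {ι : Type*} [DecidableEq ι] (s : Finset ι) (L : ι → MvPolynomial σ R) (c : ι → R)
    (hL : ∀ a ∈ s, DL 2 (L a)) :
    DL (s.card + 1) (∏ a ∈ s, L a) ∧
      DL s.card ((∏ a ∈ s, (L a + C (c a))) - ∏ a ∈ s, L a) := by
  induction s using Finset.induction_on with
  | empty =>
    refine ⟨?_, ?_⟩
    · simpa using (DL_C (σ := σ) (1 : R))
    · intro t ht
      simp
  | insert a s ha ih =>
    obtain ⟨ih1, ih2⟩ := ih (fun b hb => hL b (Finset.mem_insert_of_mem hb))
    have hLa := hL a (Finset.mem_insert_self a s)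
    rw [Finset.prod_insert ha, Finset.prod_insert ha, Finset.card_insert_of_notMem ha]
    refine ⟨DL_mul (by omega) hLa ih1, ?_⟩
    have e : (L a + C (c a)) * (∏ a ∈ s, (L a + C (c a))) - L a * ∏ a ∈ s, L a
        = (L a + C (c a)) * ((∏ a ∈ s, (L a + C (c a))) - ∏ a ∈ s, L a)
          + C (c a) * ∏ a ∈ s, L a := by ring
    rw [e]
    exact DL_add (DL_mul (by omega) (DL_add hLa (DL_mono (by omega) (DL_C _))) ih2)
      (DL_mul (by omega) (DL_C _) ih1)

end

/-- the index set of the ordered pairs together with a counter -/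
def TT (b l : ℕ) : Finset (Fin b × Fin b × Fin l) := univ.filter (fun a => a.2.1 ≠ a.1)

lemma prod_TT {M : Type*} [CommMonoid M] (b l : ℕ) (g : Fin b → Fin b → M) :
    ∏ a ∈ TT b l, g a.1 a.2.1 = ∏ i : Fin b, ∏ j ∈ univ.erase i, g i j ^ l := by
  unfold TT
  rw [Finset.prod_filter, Fintype.prod_prod_type]
  refine Finset.prod_congr rfl (fun i _ => ?_)
  rw [Fintype.prod_prod_type]
  have e : (univ.erase i : Finset (Fin b)) = univ.filter (fun j => j ≠ i) := by
    ext j; simp
  rw [e, Finset.prod_filter]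
  refine Finset.prod_congr rfl (fun j _ => ?_)
  by_cases h : j = i
  · simp [h]
  · simp [h]

lemma card_TT (b l : ℕ) : (TT b l).card = b * ((b - 1) * l) := by
  have h := prod_TT (M := Multiplicative ℕ) b l (fun _ _ => Multiplicative.ofAdd 1)
  simp only [Finset.prod_const] at h
  have h2 := congrArg Multiplicative.toAdd h
  simp only [toAdd_pow, toAdd_ofAdd, smul_eq_mul, mul_one, toAdd_prod, Finset.sum_const,
    Finset.card_erase_of_mem (Finset.mem_univ _), Finset.card_univ, Fintype.card_fin] at h2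
  exact h2

theorem packK (p : ℕ) [Fact p.Prime] (b l : ℕ) (hb : b * l < p)
    (K : Fin b → Fin b → Fin l → ZMod p) :
    ∃ x : Fin b → ZMod p, ∀ i j, i ≠ j → ∀ m, x j - x i + K i j m ≠ 0 := by
  classical
  set L : (Fin b × Fin b × Fin l) → MvPolynomial (Fin b) (ZMod p) :=
    fun a => X a.2.1 - X a.1 with hLdef
  set f : MvPolynomial (Fin b) (ZMod p) :=
    ∏ a ∈ TT b l, (L a + C (K a.1 a.2.1 a.2.2)) with hf
  set t : Fin b →₀ ℕ := Finsupp.equivFunOnFinite.symm (fun _ : Fin b => (b - 1) * l) with ht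
  have htd : t.degree = b * ((b - 1) * l) := by
    rw [Finsupp.degree_eq_sum]
    simp [ht]
  obtain ⟨h1, h2⟩ := DL_prod (TT b l) L (fun a => K a.1 a.2.1 a.2.2)
    (fun a _ => DL_sub (DL_X _) (DL_X _))
  have hcoeff : coeff t f = coeff t (∏ a ∈ TT b l, L a) := by
    have := h2 t (by rw [htd, card_TT])
    rw [coeff_sub] at this
    exact sub_eq_zero.1 this
  have hmap : (∏ a ∈ TT b l, L a) = MvPolynomial.map (Int.castRingHom (ZMod p))
      (∏ i : Fin b, ∏ j ∈ univ.erase i,
        (MvPolynomial.X j - MvPolynomial.X i : MvPolynomial (Fin b) ℤ) ^ l) := by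
    rw [hLdef]
    rw [prod_TT b l (fun i j => (X j - X i : MvPolynomial (Fin b) (ZMod p)))]
    rw [map_prod]
    refine Finset.prod_congr rfl (fun i _ => ?_)
    rw [map_prod]
    refine Finset.prod_congr rfl (fun j _ => ?_)
    rw [map_pow, map_sub, map_X, map_X]
  have hne : coeff t f ≠ 0 := by
    rw [hcoeff, hmap, coeff_map]
    intro h0
    have hd := Pool.Agent.W284.TF.Dyson.dys b l
    have hd2 := congrArg (Int.castRingHom (ZMod p)) hd
    rw [map_mul, h0, zero_mul] at hd2
    have h3 : (((b * l).factorial : ℕ) : ZMod p) = 0 := by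
      have := hd2.symm
      simpa using this
    rw [ZMod.natCast_eq_zero_iff] at h3
    have := (Nat.Prime.dvd_factorial (Fact.out : p.Prime)).1 h3
    omega
  have hdeg : f.totalDegree = t.degree := by
    apply le_antisymm
    · have hDf : DL ((TT b l).card + 1) f := by
        have e : f = (f - ∏ a ∈ TT b l, L a) + ∏ a ∈ TT b l, L a := by ring
        rw [e]
        exact DL_add (DL_mono (by omega) h2) h1
      unfold MvPolynomial.totalDegree
      refine Finset.sup_le (fun s hs => ?_)
      rw [mem_support_iff] at hs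
      by_contra hlt
      apply hs
      apply hDf
      rw [card_TT, ← htd]
      have e2 : s.degree = ∑ a ∈ s.support, s a := Finsupp.degree_apply s
      rw [Finsupp.sum] at hlt
      rw [e2]
      omega
    · have := le_totalDegree (mem_support_iff.2 hne)
      rw [Finsupp.degree_apply]
      simpa [Finsupp.sum] using this
  obtain ⟨s, -, hs⟩ := combinatorial_nullstellensatz_exists_eval_nonzero f t hne hdeg
    (fun _ => (univ : Finset (ZMod p))) (by
      intro i
      rw [Finset.card_univ, ZMod.card]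
      simp only [ht, Finsupp.equivFunOnFinite_symm_apply_apply]
      calc (b - 1) * l ≤ b * l := Nat.mul_le_mul_right _ (Nat.sub_le _ _)
        _ < p := hb)
  refine ⟨s, fun i j hij m h0 => hs ?_⟩
  rw [hf, map_prod]
  apply Finset.prod_eq_zero (i := (i, j, m))
  · simp [TT, Ne.symm hij]
  · simp [hLdef, h0]

/-- translates of `b` blocks of four points can be made pairwise disjoint modulo `p > 8 b` -/
theorem pack (p : ℕ) [Fact p.Prime] (b : ℕ) (hb : b * 8 < p) (Q : Fin b → Fin 2 × Fin 2 → ZMod p) :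
    ∃ x : Fin b → ZMod p, ∀ i j, i ≠ j → ∀ u v, x i + Q i u ≠ x j + Q j v := by
  obtain ⟨E⟩ : Nonempty (((Fin 2 × Fin 2) × Fin 2) ≃ Fin 8) :=
    ⟨Fintype.equivOfCardEq (by simp)⟩
  obtain ⟨x, hx⟩ := packK p b 8 hb (fun i j m =>
    if i < j then
      Q j ((E.symm m).2, 0) - Q i (E.symm m).1
    else
      Q j (E.symm m).1 - Q i ((E.symm m).2, 1))
  have key : ∀ i j, i < j → ∀ u v, x i + Q i u ≠ x j + Q j v := by
    intro i j hij u v he
    obtain ⟨v1, v2⟩ := v
    rcases (by fin_cases v2 <;> simp : v2 = 0 ∨ v2 = 1) with rfl | rfl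
    · have h := hx i j (ne_of_lt hij) (E (u, v1))
      apply h
      simp only [if_pos hij, Equiv.symm_apply_apply]
      rw [← sub_eq_zero] at he
      rw [← neg_eq_zero, ← he]
      ring
    · have h := hx j i (ne_of_gt hij) (E (u, v1))
      apply h
      simp only [if_neg (not_lt_of_gt hij), Equiv.symm_apply_apply]
      rw [← sub_eq_zero] at he
      rw [← he]
      ring
  refine ⟨x, ?_⟩
  intro i j hij u v
  rcases lt_or_gt_of_ne hij with h | h
  · exact key i j h u v
  · exact (key j i h v u).symm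

end Pool.Agent.H53.XP
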