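import Mathlib
import Pool.Agent.H53.XP.Pack
import Pool.Agent.H53.XP.Local

set_option autoImplicit false

namespace Pool.Agent.H53.XP

/-- gluing involutions of the two layers with the same fixed points into an edge colouring -/
theorem assemble {W : Type*} (C : Type*) [Fintype C] (N : ℕ) (hC : Fintype.card C = N)
    (G : SimpleGraph (W × Fin 2)) (P0 P1 : W → W → Prop)
    (hG : ∀ p q : W × Fin 2, G.Adj p q ↔ ((p.2 = 0 ∧ q.2 = 0 ∧ P0 p.1 q.1) ∨
      (p.2 = 1 ∧ q.2 = 1 ∧ P1 p.1 q.1) ∨ (p.1 = q.1 ∧ p.2 ≠ q.2)))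
    (α β : C → W → W) (hα : ∀ c x, α c (α c x) = x) (hβ : ∀ c x, β c (β c x) = x)
    (hfix : ∀ c x, α c x = x ↔ β c x = x) (hsp : ∀ x, ∃ c, α c x = x) (hne : Nonempty C)
    (h0 : ∀ x y, P0 x y → ∃ c, α c x = y) (h1 : ∀ x y, P1 x y → ∃ c, β c x = y) :
    ∃ c : Sym2 (W × Fin 2) → Fin N, ∀ e ∈ G.edgeSet, ∀ f ∈ G.edgeSet, e ≠ f →
        (∃ v, v ∈ e ∧ v ∈ f) → c e ≠ c f := by
  classical
  let m : C → W × Fin 2 → W × Fin 2 := fun c z =>
    if z.2 = 0 then (if α c z.1 = z.1 then (z.1, 1) else (α c z.1, 0))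
    else (if β c z.1 = z.1 then (z.1, 0) else (β c z.1, 1))
  have hm : ∀ c z, m c (m c z) = z := by
    rintro c ⟨x, i⟩
    fin_cases i
    · by_cases h : α c x = x
      · have h' := (hfix c x).1 h
        simp [m, h, h']
      · have h' : ¬ x = α c x := fun e => h e.symm
        simp [m, h, hα, h']
    · by_cases h : β c x = x
      · have h' := (hfix c x).2 h
        simp [m, h, h']
      · have h' : ¬ x = β c x := fun e => h e.symm
        simp [m, h, hβ, h']
  have hcov : ∀ p q, G.Adj p q → ∃ c, m c p = q := by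
    rintro ⟨x, i⟩ ⟨y, j⟩ hadj
    have hne2 := hadj.ne
    rw [hG] at hadj
    simp only at hadj
    rcases hadj with ⟨hi, hj, hP⟩ | ⟨hi, hj, hP⟩ | ⟨hxy, hij⟩
    · subst hi hj
      obtain ⟨c, hc⟩ := h0 x y hP
      have hyx : ¬ y = x := by rintro rfl; exact hne2 rfl
      exact ⟨c, by simp [m, hc, hyx]⟩
    · subst hi hj
      obtain ⟨c, hc⟩ := h1 x y hP
      have hyx : ¬ y = x := by rintro rfl; exact hne2 rfl
      exact ⟨c, by simp [m, hc, hyx]⟩
    · subst hxy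
      obtain ⟨c, hc⟩ := hsp x
      have hc' := (hfix c x).1 hc
      refine ⟨c, ?_⟩
      fin_cases i <;> fin_cases j <;> simp_all [m]
  have hcol : ∀ e : Sym2 (W × Fin 2), ∃ c : C, e ∈ G.edgeSet → ∀ u v, e = s(u, v) → m c u = v := by
    intro e
    by_cases he : e ∈ G.edgeSet
    · induction e using Sym2.ind with
      | _ p q =>
        rw [SimpleGraph.mem_edgeSet] at he
        obtain ⟨c, hc⟩ := hcov p q he
        refine ⟨c, fun _ u v huv => ?_⟩
        rw [Sym2.eq_iff] at huv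
        rcases huv with ⟨rfl, rfl⟩ | ⟨rfl, rfl⟩
        · exact hc
        · rw [← hc, hm]
    · exact ⟨Classical.arbitrary C, fun h => absurd h he⟩
  choose col hcol using hcol
  refine ⟨fun e => (Fintype.equivFinOfCardEq hC) (col e), ?_⟩
  rintro e he f hf hef ⟨v, hve, hvf⟩ heq
  have heq' : col e = col f := (Fintype.equivFinOfCardEq hC).injective heq
  rw [Sym2.mem_iff_exists] at hve hvf
  obtain ⟨a, rfl⟩ := hve
  obtain ⟨b, rfl⟩ := hvf
  have ha := hcol _ he v a rfl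
  have hb := hcol _ hf v b rfl
  apply hef
  rw [← ha, ← hb, heq']

/-- extending a fixed point free involution of the index set of an injective family -/
lemma extInv {I V : Type*} (w : I → V) (hw : Function.Injective w) (τ : I → I)
    (hτ : ∀ i, τ (τ i) = i) (hτ' : ∀ i, τ i ≠ i) :
    ∃ A : V → V, (∀ x, A (A x) = x) ∧ (∀ x, A x = x ↔ ¬ ∃ i, w i = x) ∧ ∀ i, A (w i) = w (τ i) := by
  have h1 : ∀ i, Function.extend w (fun i => w (τ i)) id (w i) = w (τ i) := fun i =>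
    hw.extend_apply _ _ i
  have h2 : ∀ x, (¬ ∃ i, w i = x) → Function.extend w (fun i => w (τ i)) id x = x := fun x hx => by
    rw [Function.extend_apply' _ _ _ hx]; rfl
  refine ⟨Function.extend w (fun i => w (τ i)) id, ?_, ?_, h1⟩
  · intro x
    by_cases hx : ∃ i, w i = x
    · obtain ⟨i, rfl⟩ := hx
      rw [h1, h1, hτ]
    · rw [h2 x hx, h2 x hx]
  · intro x
    constructor
    · rintro h ⟨i, rfl⟩
      rw [h1] at h
      exact hτ' i (hw h)
    · exact h2 x

lemma natCast_ne_zero' {k m : ℕ} (hm : m ∈ Finset.Icc 1 (2 * k)) :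
    ((m : ℕ) : ZMod (4 * k + 1)) ≠ 0 := by
  rw [Finset.mem_Icc] at hm
  rw [Ne, ZMod.natCast_eq_zero_iff]
  intro h
  have := Nat.le_of_dvd (by omega) h
  omega

lemma natCast_inj' {k m n : ℕ} (hm : m ∈ Finset.Icc 1 (2 * k)) (hn : n ∈ Finset.Icc 1 (2 * k))
    (h : ((m : ℕ) : ZMod (4 * k + 1)) = n) : m = n := by
  rw [Finset.mem_Icc] at hm hn
  rw [ZMod.natCast_eq_natCast_iff'] at h
  rwa [Nat.mod_eq_of_lt (by omega), Nat.mod_eq_of_lt (by omega)] at h

lemma natCast_ne_neg {k m n : ℕ} (hm : m ∈ Finset.Icc 1 (2 * k)) (hn : n ∈ Finset.Icc 1 (2 * k)) :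
    ((m : ℕ) : ZMod (4 * k + 1)) ≠ -n := by
  rw [Finset.mem_Icc] at hm hn
  intro h
  have h2 : ((m + n : ℕ) : ZMod (4 * k + 1)) = 0 := by
    push_cast
    rw [h]; ring
  rw [ZMod.natCast_eq_zero_iff] at h2
  have := Nat.le_of_dvd (by omega) h2
  omega

lemma enum {b : ℕ} (S : Finset ℕ) (hS : S.card = b * 2) :
    ∃ f : Fin b → Fin 2 → ℕ, (∀ j u, f j u ∈ S) ∧ (∀ s ∈ S, ∃ j u, f j u = s) ∧
      (∀ j u j' u', f j u = f j' u' → j = j' ∧ u = u') := by
  let E : Fin b × Fin 2 ≃ S := finProdFinEquiv.trans (S.equivFinOfCardEq hS).symm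
  refine ⟨fun j u => (E (j, u) : ℕ), fun j u => (E (j, u)).2, ?_, ?_⟩
  · intro s hs
    refine ⟨(E.symm ⟨s, hs⟩).1, (E.symm ⟨s, hs⟩).2, ?_⟩
    simp
  · intro j u j' u' h
    have := E.injective (Subtype.ext h)
    simpa using this

lemma ddist {n : ℕ} [NeZero n] (x y : ZMod n) (S : Finset ℕ)
    (h : min (x - y).val (y - x).val ∈ S) : ∃ m ∈ S, x = y + m ∨ y = x + m := by
  rcases min_choice (x - y).val (y - x).val with h' | h'
  · rw [h'] at h
    refine ⟨_, h, Or.inl ?_⟩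
    rw [ZMod.natCast_zmod_val]
    ring
  · rw [h'] at h
    refine ⟨_, h, Or.inr ?_⟩
    rw [ZMod.natCast_zmod_val]
    ring

lemma blockInj {R : Type*} [AddCommGroup R] (s t : R) (hs : s ≠ 0) (ht : t ≠ 0) (hts : t ≠ s)
    (hst : s + t ≠ 0) (u v u' v' : Fin 2)
    (h : (if u = 1 then s else 0) + (if v = 1 then t else 0)
      = (if u' = 1 then s else 0) + (if v' = 1 then t else 0)) : u = u' ∧ v = v' := by
  have hs' := hs.symm
  have ht' := ht.symm
  have hts' := hts.symm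
  have hst' := hst.symm
  fin_cases u <;> fin_cases v <;> fin_cases u' <;> fin_cases v' <;> simp_all

theorem main (k : ℕ) (hp : (4 * k + 1).Prime) (b : ℕ) (hk : k = 2 * b) (S : Finset ℕ)
    (hS : S ⊆ Finset.Icc 1 (2 * k)) (hcard : S.card = k)
    (G : SimpleGraph (ZMod (4 * k + 1) × Fin 2))
    (hG : ∀ p q : ZMod (4 * k + 1) × Fin 2, G.Adj p q ↔
      ((p.2 = 0 ∧ q.2 = 0 ∧ min (p.1 - q.1).val (q.1 - p.1).val ∈ S) ∨
       (p.2 = 1 ∧ q.2 = 1 ∧
          min (p.1 - q.1).val (q.1 - p.1).val ∈ Finset.Icc 1 (2 * k) \ S) ∨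
       (p.1 = q.1 ∧ p.2 ≠ q.2))) :
    ∃ c : Sym2 (ZMod (4 * k + 1) × Fin 2) → Fin (2 * k + 1),
      ∀ e ∈ G.edgeSet, ∀ f ∈ G.edgeSet, e ≠ f →
        (∃ v, v ∈ e ∧ v ∈ f) → c e ≠ c f := by
  classical
  have : Fact (4 * k + 1).Prime := ⟨hp⟩
  set T : Finset ℕ := Finset.Icc 1 (2 * k) \ S with hT
  have hTc : T.card = b * 2 := by
    rw [hT, Finset.card_sdiff_of_subset hS, Nat.card_Icc]
    omega
  obtain ⟨f, f1, f2, f3⟩ := enum (b := b) S (by omega)
  obtain ⟨g, g1, g2, g3⟩ := enum (b := b) T hTc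
  have hfI : ∀ j u, f j u ∈ Finset.Icc 1 (2 * k) := fun j u => hS (f1 j u)
  have hgI : ∀ j u, g j u ∈ Finset.Icc 1 (2 * k) := fun j u => (Finset.mem_sdiff.1 (g1 j u)).1
  have hgS : ∀ j u, g j u ∉ S := fun j u => (Finset.mem_sdiff.1 (g1 j u)).2
  set s : Fin b → Fin 2 → ZMod (4 * k + 1) := fun j u => ((f j u : ℕ) : ZMod (4 * k + 1)) with hs
  set t : Fin b → Fin 2 → ZMod (4 * k + 1) := fun j u => ((g j u : ℕ) : ZMod (4 * k + 1)) with ht
  have s0 : ∀ j u, s j u ≠ 0 := fun j u => natCast_ne_zero' (hfI j u)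
  have t0 : ∀ j u, t j u ≠ 0 := fun j u => natCast_ne_zero' (hgI j u)
  have ss : ∀ j, s j 1 ≠ s j 0 := fun j h => by
    have := (f3 _ _ _ _ (natCast_inj' (hfI j 1) (hfI j 0) h)).2
    simp at this
  have tt : ∀ j, t j 1 ≠ t j 0 := fun j h => by
    have := (g3 _ _ _ _ (natCast_inj' (hgI j 1) (hgI j 0) h)).2
    simp at this
  have ssn : ∀ j, s j 1 ≠ - s j 0 := fun j => natCast_ne_neg (hfI j 1) (hfI j 0)
  have ttn : ∀ j, t j 1 ≠ - t j 0 := fun j => natCast_ne_neg (hgI j 1) (hgI j 0)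
  have ts : ∀ j u j' u', t j u ≠ s j' u' := fun j u j' u' h => by
    have h2 := natCast_inj' (hgI j u) (hfI j' u') h
    exact hgS j u (h2 ▸ f1 j' u')
  have tsn : ∀ j u j' u', t j u ≠ - s j' u' := fun j u j' u' =>
    natCast_ne_neg (hgI j u) (hfI j' u')
  have stn : ∀ j u j' u', s j u ≠ - t j' u' := fun j u j' u' =>
    natCast_ne_neg (hfI j u) (hgI j' u')
  obtain ⟨x, hx⟩ := pack (4 * k + 1) b (by omega) (fun j uv =>
    (if uv.1 = 1 then s j 0 else 0) + (if uv.2 = 1 then t j 0 else 0))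
  set w : Fin b × Fin 2 × Fin 2 → ZMod (4 * k + 1) := fun i =>
    x i.1 + ((if i.2.1 = 1 then s i.1 0 else 0) + (if i.2.2 = 1 then t i.1 0 else 0)) with hw
  have hwinj : Function.Injective w := by
    rintro ⟨j, u, v⟩ ⟨j', u', v'⟩ h
    by_cases hj : j = j'
    · subst hj
      have h' : (if u = 1 then s j 0 else 0) + (if v = 1 then t j 0 else 0)
          = (if u' = 1 then s j 0 else 0) + (if v' = 1 then t j 0 else 0) := by
        simpa [hw] using h
      obtain ⟨e1, e2⟩ := blockInj (s j 0) (t j 0) (s0 j 0) (t0 j 0) (ts j 0 j 0)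
        (fun h => stn j 0 j 0 (eq_neg_of_add_eq_zero_left h)) u v u' v' h'
      rw [e1, e2]
    · exact absurd h (hx j j' hj (u, v) (u', v'))
  have hL1 := fun j => local2 (4 * k + 1) (by omega) (s j 0) (s j 1) (t j 0) (x j)
    (s0 j 0) (s0 j 1) (ss j) (ssn j) (t0 j 0) (ts j 0 j 0) (tsn j 0 j 0) (ts j 0 j 1)
  have hL2 := fun j => local2 (4 * k + 1) (by omega) (t j 0) (t j 1) (s j 0) (x j)
    (t0 j 0) (t0 j 1) (tt j) (ttn j) (s0 j 0) (ts j 0 j 0).symm (stn j 0 j 0) (ts j 1 j 0).symm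
  choose αl p1 p2 p3 p4 using hL1
  choose βl q1 q2 q3 q4 using hL2
  obtain ⟨A0, A1, A2, A3⟩ := extInv w hwinj (fun i => (i.1, 1 - i.2.1, i.2.2))
    (by rintro ⟨j, u, v⟩; fin_cases u <;> simp)
    (by rintro ⟨j, u, v⟩; fin_cases u <;> simp)
  obtain ⟨B0, B1, B2, B3⟩ := extInv w hwinj (fun i => (i.1, i.2.1, 1 - i.2.2))
    (by rintro ⟨j, u, v⟩; fin_cases v <;> simp)
    (by rintro ⟨j, u, v⟩; fin_cases v <;> simp)
  let α : Option (Fin b × Fin 2 × Fin 2) → ZMod (4 * k + 1) → ZMod (4 * k + 1) := fun c =>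
    match c with
    | none => A0
    | some i => αl i.1 i.2.1 i.2.2
  let β : Option (Fin b × Fin 2 × Fin 2) → ZMod (4 * k + 1) → ZMod (4 * k + 1) := fun c =>
    match c with
    | none => B0
    | some i => βl i.1 i.2.2 i.2.1
  have hαi : ∀ c x, α c (α c x) = x := by
    rintro (_ | ⟨j, u, v⟩) x
    · exact A1 x
    · exact p1 j u v x
  have hβi : ∀ c x, β c (β c x) = x := by
    rintro (_ | ⟨j, u, v⟩) x
    · exact B1 x
    · exact q1 j v u x
  have hαs : ∀ m ∈ S, ∀ z : ZMod (4 * k + 1), ∃ c, α c z = z + m := by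
    intro m hm z
    obtain ⟨j, u, rfl⟩ := f2 m hm
    rcases (by fin_cases u <;> simp : u = 0 ∨ u = 1) with rfl | rfl
    · by_cases h1 : z = x j
      · refine ⟨none, ?_⟩
        have := A3 (j, 0, 0)
        simp only [hw] at this
        simp at this
        rw [h1]
        exact this
      · by_cases h2 : z = x j + t j 0
        · refine ⟨none, ?_⟩
          have := A3 (j, 0, 1)
          simp only [hw] at this
          simp at this
          rw [h2]
          show A0 (x j + t j 0) = x j + t j 0 + s j 0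
          rw [this]
          ring
        · obtain ⟨u, v, h⟩ := p3 j z h1 h2
          exact ⟨some (j, u, v), h⟩
    · obtain ⟨u, v, h⟩ := p4 j z
      exact ⟨some (j, u, v), h⟩
  have hβs : ∀ m ∈ T, ∀ z : ZMod (4 * k + 1), ∃ c, β c z = z + m := by
    intro m hm z
    obtain ⟨j, u, rfl⟩ := g2 m hm
    rcases (by fin_cases u <;> simp : u = 0 ∨ u = 1) with rfl | rfl
    · by_cases h1 : z = x j
      · refine ⟨none, ?_⟩
        have := B3 (j, 0, 0)
        simp only [hw] at this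
        simp at this
        rw [h1]
        exact this
      · by_cases h2 : z = x j + s j 0
        · refine ⟨none, ?_⟩
          have := B3 (j, 1, 0)
          simp only [hw] at this
          simp at this
          rw [h2]
          show B0 (x j + s j 0) = x j + s j 0 + t j 0
          rw [this]
          ring
        · obtain ⟨u, v, h⟩ := q3 j z h1 h2
          exact ⟨some (j, v, u), h⟩
    · obtain ⟨u, v, h⟩ := q4 j z
      exact ⟨some (j, v, u), h⟩
  refine assemble (Option (Fin b × Fin 2 × Fin 2)) (2 * k + 1) ?_ G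
    (fun x y => min (x - y).val (y - x).val ∈ S) (fun x y => min (x - y).val (y - x).val ∈ T)
    hG α β hαi hβi ?_ ?_ ⟨none⟩ ?_ ?_
  · simp only [Fintype.card_option, Fintype.card_prod, Fintype.card_fin]
    omega
  · rintro (_ | ⟨j, u, v⟩) z
    · show A0 z = z ↔ B0 z = z
      rw [A2, B2]
    · show αl j u v z = z ↔ βl j v u z = z
      rw [p2, q2, add_right_comm]
  · intro z
    by_cases hz : ∃ i, w i = z
    · obtain ⟨⟨j, u, v⟩, hi⟩ := hz
      refine ⟨some (j, u, v), ?_⟩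
      show αl j u v z = z
      rw [p2, ← hi, hw, add_assoc]
    · exact ⟨none, (A2 z).2 hz⟩
  · intro y z h
    obtain ⟨m, hm, h' | h'⟩ := ddist y z S h
    · obtain ⟨c, hc⟩ := hαs m hm z
      exact ⟨c, by rw [h', ← hc, hαi]⟩
    · obtain ⟨c, hc⟩ := hαs m hm y
      exact ⟨c, by rw [h', ← hc]⟩
  · intro y z h
    obtain ⟨m, hm, h' | h'⟩ := ddist y z T h
    · obtain ⟨c, hc⟩ := hβs m hm z
      exact ⟨c, by rw [h', ← hc, hβi]⟩
    · obtain ⟨c, hc⟩ := hβs m hm y
      exact ⟨c, by rw [h', ← hc]⟩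

end Pool.Agent.H53.XP
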